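import Pool.Agent.Q29.SR.Van
import Pool.Agent.Q29.SR.Ex

/-! MP_af1090_al, Q1: a solvable (of index 3) subvariety of the variety `Malc` of Malcev algebras
whose basic superrank is infinite: the Lie algebras `L` with `L³L³ = 0`. -/

open TensorProduct

namespace Pool.Agent.Results.MP_af1090_al.InfiniteSuperrank

open Pool.Agent.Q29.SR

universe u

theorem isSubvariety_malc (F : Type u) [Field F] : IsSubvariety (lieAN F) (malc F) := by
  intro B hB
  obtain ⟨h1, h2, h3⟩ := inVariety_lieAN_iff.mp hB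
  rintro p (rfl | rfl) v
  · simpa only [map_add, map_mul, lift_X] using h1 _ _
  · simp only [map_sub, map_mul, lift_jac, lift_X]
    rw [h2, h2, zero_mul, sub_zero]

theorem isSolvable (F : Type u) [Field F] : IsSolvableOfIndex (lieAN F) 3 := by
  intro B hB
  obtain ⟨h1, h2, h3⟩ := inVariety_lieAN_iff.mp hB
  rintro p rfl v
  simp only [solvPoly, map_mul, lift_X]
  exact h3 _ _ _ _ _ _

variable {F : Type u} [Field F]

theorem isSuper (A : SuperAlg F) : IsSuperalgebra A.part := ⟨A.isCompl, A.mul_mem⟩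

theorem envelope_isIn_iff (A : SuperAlg F) (S : Set (NAPoly F)) :
    A.envelope.IsIn S ↔ InVariety (envelope A.part (isSuper A)) S := Iff.rfl

theorem envelope_satisfies_iff (A : SuperAlg F) (f : NAPoly F) :
    A.envelope.Satisfies f ↔ IsIdentity (envelope A.part (isSuper A)) f := Iff.rfl

theorem generated_of_isFG (A : SuperAlg F) (hfg : A.IsFG) : ∃ r s : ℕ, A.GeneratedBy r s := by
  obtain ⟨S, hS⟩ := hfg
  choose c0 hc0 c1 hc1 hc using hom_decomp (isSuper A)
  refine ⟨S.card, S.card, fun i => c0 (S.equivFin.symm i), fun i => c1 (S.equivFin.symm i),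
    fun i => hc0 _, fun i => hc1 _, ?_⟩
  rw [eq_top_iff, ← hS]
  apply NonUnitalAlgebra.adjoin_le
  intro x hx
  have h0 : c0 x ∈ NonUnitalAlgebra.adjoin F
      ((Set.range fun i => c0 (S.equivFin.symm i)) ∪ Set.range fun i => c1 (S.equivFin.symm i)) :=
    NonUnitalAlgebra.subset_adjoin F (Or.inl ⟨S.equivFin ⟨x, hx⟩, by simp⟩)
  have h1 : c1 x ∈ NonUnitalAlgebra.adjoin F
      ((Set.range fun i => c0 (S.equivFin.symm i)) ∪ Set.range fun i => c1 (S.equivFin.symm i)) :=
    NonUnitalAlgebra.subset_adjoin F (Or.inr ⟨S.equivFin ⟨x, hx⟩, by simp⟩)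
  have := add_mem h0 h1
  rwa [hc] at this

theorem result : ∀ (F : Type u) [Field F] [CharZero F], ∃ S : Set (NAPoly F),
    IsSubvariety S (malc F) ∧ IsSolvableOfIndex S 3 ∧ ¬ HasFiniteBasicSuperrank S ∧
    ∀ r s : ℕ, NotReachedBy S r s := by
  intro F _ _
  have hne : ∀ K k : ℕ, ¬ IsSubvariety (lieAN F) {detPoly F K k} := by
    intro K k hsub
    exact lift_detPoly_LK (F := F) (K := K) k (hsub ⟨LK F K⟩ LK_inVariety _ rfl _)
  have hid : ∀ (r s : ℕ) (A : SuperAlg F), A.envelope.IsIn (lieAN F) → A.GeneratedBy r s →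
        A.envelope.Satisfies (detPoly F (r + 1) ((r + 1) * (r + 1) * s + 1)) := by
    rintro r s A hV ⟨a, b, ha, hb, hgen⟩
    rw [envelope_satisfies_iff]
    exact envelope_detPoly (isSuper A) ha hb hgen ((envelope_isIn_iff A _).mp hV)
  refine ⟨lieAN F, isSubvariety_malc F, isSolvable F, ?_, fun r s => ⟨_, hne _ _, hid r s⟩⟩
  rintro ⟨A, hfg, hvar⟩
  obtain ⟨r, s, hgen⟩ := generated_of_isFG A hfg
  have hV : A.envelope.IsIn (lieAN F) := (hvar _).mpr fun f hf => hf
  refine hne (r + 1) ((r + 1) * (r + 1) * s + 1) ?_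
  intro B hB f hf
  rw [Set.mem_singleton_iff] at hf
  rw [hf]
  exact (hvar B).mp hB _ (hid r s A hV hgen)

end Pool.Agent.Results.MP_af1090_al.InfiniteSuperrank
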